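import Mathlib

/-!
# A group whose finitary ballean is so-bounded but not bo-bounded: definitions of the statement
-/

namespace Pool.H16.MV.SoNotBo

/-- The ball `E_F[x] = {x} ∪ F x` of the finitary ballean of `G`. -/
def ball {G : Type*} [Group G] (F : Finset G) (x : G) : Set G :=
  insert x ((fun g => g * x) '' (F : Set G))

/-- `f` is boundedly oscillating. -/
def BoundedlyOscillating {G : Type*} [Group G] (f : G → ℝ) : Prop :=
  ∃ C : ℝ, 0 < C ∧ ∀ F : Finset G, ∃ B : Finset G, ∀ x : G, x ∉ B →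
    Metric.diam (f '' ball F x) < C

/-- `f` is slowly oscillating. -/
def SlowlyOscillating {G : Type*} [Group G] (f : G → ℝ) : Prop :=
  ∀ F : Finset G, ∀ ε : ℝ, 0 < ε → ∃ B : Finset G, ∀ x : G, x ∉ B →
    Metric.diam (f '' ball F x) < ε

/-- The finitary ballean of `G` is bo-bounded. -/
def BoBounded (G : Type*) [Group G] : Prop :=
  ∀ f : G → ℝ, BoundedlyOscillating f →
    ∃ B : Finset G, ∃ M : ℝ, ∀ x : G, x ∉ B → |f x| ≤ M

/-- The finitary ballean of `G` is so-bounded. -/
def SoBounded (G : Type*) [Group G] : Prop :=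
  ∀ f : G → ℝ, SlowlyOscillating f →
    ∃ B : Finset G, ∃ M : ℝ, ∀ x : G, x ∉ B → |f x| ≤ M

end Pool.H16.MV.SoNotBo
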