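import Mathlib
import Pool.Agent.H16.MV.SoNotBoDefs

/-!
# A group whose finitary ballean is so-bounded but not bo-bounded: the proof
-/

namespace Pool.H16.MV.SoNotBo

section general

variable {G : Type*} [Group G]

lemma finite_ball_image (f : G → ℝ) (F : Finset G) (x : G) : (f '' ball F x).Finite := by
  apply Set.Finite.image
  unfold ball
  exact ((F.finite_toSet).image _).insert _

/-- the reformulation of slow oscillation for one group element -/
lemma slow_one {f : G → ℝ} (hf : SlowlyOscillating f) (g : G) {ε : ℝ} (hε : 0 < ε) :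
    {x : G | ε ≤ |f (g * x) - f x|}.Finite := by
  obtain ⟨B, hB⟩ := hf {g} ε hε
  refine Set.Finite.subset B.finite_toSet ?_
  intro x hx
  by_contra hxB
  have h1 := hB x (by simpa using hxB)
  have h2 : dist (f (g * x)) (f x) ≤ Metric.diam (f '' ball {g} x) := by
    apply Metric.dist_le_diam_of_mem (finite_ball_image f {g} x).isBounded
    · exact ⟨g * x, by simp [ball], rfl⟩
    · exact ⟨x, by simp [ball], rfl⟩
  rw [Real.dist_eq] at h2
  simp only [Set.mem_ofPred_eq] at hx
  linarith

variable {A : Type*} [CommGroup A]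

/-- On a countable subset of an uncountable commutative group, a slowly oscillating function
converges. -/
lemma exists_limit_on_countable [Uncountable A] (u : A → ℝ)
    (hu : ∀ g : A, ∀ ε : ℝ, 0 < ε → {a : A | ε ≤ |u (g * a) - u a|}.Finite)
    (D : Set A) (hD : D.Countable) :
    ∃ b : A, ∀ ε : ℝ, 0 < ε → {c : A | c ∈ D ∧ ε ≤ |u c - u b|}.Finite := by
  have hT : (⋃ c ∈ D, {a : A | u (c * a) ≠ u a}).Countable := by
    refine hD.biUnion ?_
    intro c _
    have : {a : A | u (c * a) ≠ u a} ⊆ ⋃ n : ℕ, {a : A | 1 / ((n : ℝ) + 1) ≤ |u (c * a) - u a|} := by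
      intro a ha
      have hpos : 0 < |u (c * a) - u a| := abs_pos.mpr (sub_ne_zero.mpr ha)
      obtain ⟨n, hn⟩ := exists_nat_one_div_lt hpos
      exact Set.mem_iUnion.mpr ⟨n, hn.le⟩
    refine Set.Countable.mono this (Set.countable_iUnion ?_)
    intro n
    exact (hu c _ (by positivity)).countable
  obtain ⟨b, hb⟩ : ∃ b, b ∉ (⋃ c ∈ D, {a : A | u (c * a) ≠ u a}) := by
    by_contra hcon
    push Not at hcon
    have : (⋃ c ∈ D, {a : A | u (c * a) ≠ u a}) = Set.univ := Set.eq_univ_of_forall hcon
    rw [this] at hT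
    exact not_countable (Set.countable_univ_iff.mp hT)
  refine ⟨b, fun ε hε => ?_⟩
  refine (hu b ε hε).subset ?_
  rintro c ⟨hcD, hc⟩
  have hbc : u (c * b) = u b := by
    by_contra hne
    exact hb (Set.mem_biUnion hcD hne)
  simp only [Set.mem_ofPred_eq]
  rw [mul_comm b c, hbc, abs_sub_comm]
  exact hc

lemma exists_limit [Uncountable A] (u : A → ℝ)
    (hu : ∀ g : A, ∀ ε : ℝ, 0 < ε → {a : A | ε ≤ |u (g * a) - u a|}.Finite) :
    ∃ L : ℝ, ∀ ε : ℝ, 0 < ε → {a : A | ε ≤ |u a - L|}.Finite := by
  let e : ℕ ↪ A := Infinite.natEmbedding A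
  obtain ⟨b₀, hb₀⟩ := exists_limit_on_countable u hu (Set.range e) (Set.countable_range e)
  refine ⟨u b₀, fun ε hε => ?_⟩
  by_contra hinf
  have hinf' : {a : A | ε ≤ |u a - u b₀|}.Infinite := hinf
  let e' := hinf'.natEmbedding
  let D₁ : Set A := Set.range (fun n => (e' n : A))
  have hD₁ : D₁.Infinite :=
    Set.infinite_range_of_injective (Subtype.val_injective.comp e'.injective)
  obtain ⟨b₁, hb₁⟩ := exists_limit_on_countable u hu (Set.range e ∪ D₁)
    ((Set.countable_range e).union (Set.countable_range _))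
  have hL : u b₀ = u b₁ := by
    by_contra hne
    have hpos : 0 < |u b₀ - u b₁| / 2 := by
      have : 0 < |u b₀ - u b₁| := abs_pos.mpr (sub_ne_zero.mpr hne)
      linarith
    have h0 := hb₀ _ hpos
    have h1 := hb₁ _ hpos
    have hr : (Set.range e).Infinite := Set.infinite_range_of_injective e.injective
    obtain ⟨c, hc, hcn⟩ := (hr.sdiff (h0.union h1)).nonempty
    simp only [Set.mem_union, Set.mem_ofPred_eq, not_or, not_and, not_le] at hcn
    have h2 := hcn.1 hc
    have h3 := hcn.2 (Or.inl hc)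
    have h4 : |u b₀ - u b₁| ≤ |u c - u b₀| + |u c - u b₁| := by
      have := abs_sub_le (u b₀) (u c) (u b₁)
      rw [abs_sub_comm (u b₀) (u c)] at this
      exact this
    linarith
  apply hD₁
  refine (hb₁ ε hε).subset ?_
  rintro _ ⟨n, rfl⟩
  refine ⟨Or.inr ⟨n, rfl⟩, ?_⟩
  rw [← hL]
  exact (e' n).2

end general

/-- the additive group of the reals, written multiplicatively -/
abbrev K : Type := Multiplicative ℝ

/-- the acting group -/
abbrev H : Type := K × K

/-- the letters -/
abbrev X : Type := ℕ × K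

/-- the projection of `H = K × K` used for the letters of type `m` -/
noncomputable def chi (m : ℕ) : H →* K :=
  if Even m then MonoidHom.fst K K else MonoidHom.snd K K

lemma chi_diag (m : ℕ) (z : K) : chi m (z, z) = z := by
  unfold chi
  split_ifs <;> rfl

lemma chi_joint {m : ℕ} {k : H} (h1 : chi m k = 1) (h2 : chi (m + 1) k = 1) : k = 1 := by
  unfold chi at h1 h2
  by_cases hm : Even m
  · have hm' : ¬ Even (m + 1) := by simpa [Nat.even_add_one] using hm
    rw [if_pos hm] at h1
    rw [if_neg hm'] at h2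
    exact Prod.ext h1 h2
  · have hm' : Even (m + 1) := by simpa [Nat.even_add_one] using hm
    rw [if_neg hm] at h1
    rw [if_pos hm'] at h2
    exact Prod.ext h2 h1

/-- the action of `H` on the letters -/
noncomputable def act : H →* Equiv.Perm X where
  toFun h :=
    { toFun := fun x => (x.1, chi x.1 h * x.2)
      invFun := fun x => (x.1, (chi x.1 h)⁻¹ * x.2)
      left_inv := fun x => by simp
      right_inv := fun x => by simp }
  map_one' := by
    ext x : 1
    simp
  map_mul' h k := by
    ext x : 1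
    simp [mul_assoc]

lemma act_apply (h : H) (x : X) : act h x = (x.1, chi x.1 h * x.2) := rfl

/-- the action of `H` on the free group on the letters -/
noncomputable def theta : H →* MulAut (FreeGroup X) where
  toFun h := FreeGroup.freeGroupCongr (act h)
  map_one' := by
    rw [map_one]
    exact FreeGroup.freeGroupCongr_refl
  map_mul' h k := by
    rw [map_mul]
    exact (FreeGroup.freeGroupCongr_trans (act k) (act h)).symm

lemma theta_mk_singleton (h : H) (a : X × Bool) :
    theta h (FreeGroup.mk [a]) = FreeGroup.mk [(act h a.1, a.2)] := rfl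

/-- the group of the counterexample -/
abbrev G : Type := FreeGroup X ⋊[theta] H

open SemidirectProduct

/-- writing `x = h * v` with `h ∈ H` and `v` in the free group, this is `v` -/
noncomputable def fr (x : G) : FreeGroup X := theta (x.right)⁻¹ x.left

lemma fr_inr_mul (k : H) (x : G) : fr (inr k * x) = fr x := by
  simp only [fr, mul_left, left_inr, right_inr, one_mul, mul_right, mul_inv_rev]
  rw [← MulAut.mul_apply, ← map_mul]
  simp

lemma fr_inl_mul (w : FreeGroup X) (x : G) :
    fr (inl w * x) = theta (x.right)⁻¹ w * fr x := by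
  simp [fr, mul_left, mul_right]

lemma eq_inr_mul_inl (x : G) : x = inr x.right * inl (fr x) := by
  refine SemidirectProduct.ext ?_ ?_
  · simp only [fr, mul_left, left_inr, right_inr, one_mul, left_inl]
    rw [← MulAut.mul_apply, ← map_mul]
    simp
  · simp

/-- the words `l_{m-1} ... l_0`, where `l_i = (i, 1)` -/
def r : ℕ → List (X × Bool)
  | 0 => []
  | m + 1 => ((m, 1), true) :: r m

lemma r_true (m : ℕ) : ∀ a ∈ r m, a.2 = true := by
  induction m with
  | zero => simp [r]
  | succ m ih =>
    intro a ha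
    simp only [r, List.mem_cons] at ha
    rcases ha with rfl | ha
    · rfl
    · exact ih a ha

lemma reduce_of_true (L : List (X × Bool)) (hL : ∀ a ∈ L, a.2 = true) :
    FreeGroup.reduce L = L := by
  induction L with
  | nil => rfl
  | cons a L ih =>
    rw [FreeGroup.reduce.cons, ih (fun b hb => hL b (List.mem_cons_of_mem _ hb))]
    cases L with
    | nil => rfl
    | cons b L =>
      have h1 : a.2 = true := hL a (by simp)
      have h2 : b.2 = true := hL b (by simp)
      simp [h1, h2]

/-- the group element given by the word `r m` -/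
def R (m : ℕ) : FreeGroup X := FreeGroup.mk (r m)

lemma toWord_R (m : ℕ) : (R m).toWord = r m := by
  rw [R, FreeGroup.toWord_mk]
  exact reduce_of_true _ (r_true m)

lemma eq_R {m : ℕ} {v : FreeGroup X} (h : v.toWord = r m) : v = R m := by
  apply FreeGroup.toWord_injective
  rw [h, toWord_R]

lemma length_r (m : ℕ) : (r m).length = m := by
  induction m with
  | zero => rfl
  | succ m ih => simp [r, ih]

lemma r_suffix_succ (m : ℕ) : r m <:+ r (m + 1) := List.suffix_cons _ _

lemma r_suffix {m n : ℕ} (h : m ≤ n) : r m <:+ r n := by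
  induction n, h using Nat.le_induction with
  | base => exact List.suffix_rfl
  | succ n _ ih => exact ih.trans (r_suffix_succ n)

lemma letter_mul (a : X × Bool) (v : FreeGroup X) :
    (FreeGroup.mk [a] * v).toWord = a :: v.toWord ∨
      v.toWord = (a.1, !a.2) :: (FreeGroup.mk [a] * v).toWord := by
  have h : (FreeGroup.mk [a] * v).toWord = FreeGroup.reduce (a :: v.toWord) := by
    rw [FreeGroup.toWord_mul, FreeGroup.toWord_mk]
    rfl
  rw [h, FreeGroup.reduce.cons, FreeGroup.reduce_toWord]
  cases hv : v.toWord with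
  | nil => left; rfl
  | cons b L =>
    by_cases hc : a.1 = b.1 ∧ a.2 = !b.2
    · right
      have hb : b = (a.1, !a.2) := Prod.ext hc.1.symm (by simp [hc.2])
      rw [← hb]
      simp only [hc, and_self, if_true]
    · left
      simp only [hc, if_false]

/-- the set of `x` for which the property that the free part of `x` ends with `r (m + 1)` changes
under left multiplication by `g` -/
def E (m : ℕ) (g : G) : Set G :=
  {x | ¬ (r (m + 1) <:+ (fr x).toWord ↔ r (m + 1) <:+ (fr (g * x)).toWord)}

/-- `S` is contained in finitely many left translates of `K_m R_{m+1}` -/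
def Small (m : ℕ) (S : Set G) : Prop :=
  ∃ A : Finset G, ∀ x ∈ S, ∃ a ∈ A, ∃ k : H, chi m k = 1 ∧ x = a * (inr k * inl (R (m + 1)))

lemma Small.mono {m : ℕ} {S T : Set G} (h : S ⊆ T) (hT : Small m T) : Small m S := by
  obtain ⟨A, hA⟩ := hT
  exact ⟨A, fun x hx => hA x (h hx)⟩

lemma Small.union {m : ℕ} {S T : Set G} (hS : Small m S) (hT : Small m T) : Small m (S ∪ T) := by
  classical
  obtain ⟨A, hA⟩ := hS
  obtain ⟨B, hB⟩ := hT
  refine ⟨A ∪ B, ?_⟩
  rintro x (hx | hx)
  · obtain ⟨a, ha, h⟩ := hA x hx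
    exact ⟨a, Finset.mem_union_left _ ha, h⟩
  · obtain ⟨a, ha, h⟩ := hB x hx
    exact ⟨a, Finset.mem_union_right _ ha, h⟩

lemma Small.translate {m : ℕ} {S : Set G} (g : G) (hS : Small m S) :
    Small m {x | g * x ∈ S} := by
  classical
  obtain ⟨A, hA⟩ := hS
  refine ⟨A.image (fun a => g⁻¹ * a), ?_⟩
  intro x hx
  obtain ⟨a, ha, k, hk, h⟩ := hA _ hx
  refine ⟨g⁻¹ * a, Finset.mem_image_of_mem _ ha, k, hk, ?_⟩
  rw [mul_assoc, ← h]
  simp

lemma Small.empty (m : ℕ) : Small m ∅ := ⟨∅, by simp⟩

/-- small sets for consecutive indices meet in finite sets -/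
lemma Small.inter_finite {m : ℕ} {S T : Set G} (hS : Small m S) (hT : Small (m + 1) T) :
    (S ∩ T).Finite := by
  obtain ⟨A, hA⟩ := hS
  obtain ⟨B, hB⟩ := hT
  have hsub : S ∩ T ⊆ ⋃ a ∈ A, ⋃ b ∈ B, {x : G | (∃ k : H, chi m k = 1 ∧
      x = a * (inr k * inl (R (m + 1)))) ∧ (∃ k : H, chi (m + 1) k = 1 ∧
      x = b * (inr k * inl (R (m + 1 + 1))))} := by
    rintro x ⟨hxS, hxT⟩
    obtain ⟨a, ha, h⟩ := hA x hxS
    obtain ⟨b, hb, h'⟩ := hB x hxT
    simp only [Set.mem_iUnion]
    exact ⟨a, ha, b, hb, h, h'⟩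
  refine Set.Finite.subset ?_ hsub
  refine Set.Finite.biUnion A.finite_toSet (fun a _ => ?_)
  refine Set.Finite.biUnion B.finite_toSet (fun b _ => ?_)
  apply Set.Subsingleton.finite
  rintro x ⟨⟨k, hk, hx⟩, ⟨k', hk', hx'⟩⟩ y ⟨⟨l, hl, hy⟩, ⟨l', hl', hy'⟩⟩
  have e1 : x.right = a.right * k := by rw [hx]; simp
  have e2 : x.right = b.right * k' := by rw [hx']; simp
  have e3 : y.right = a.right * l := by rw [hy]; simp
  have e4 : y.right = b.right * l' := by rw [hy']; simp
  have e5 : k⁻¹ * l = k'⁻¹ * l' := by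
    have : x.right⁻¹ * y.right = k⁻¹ * l := by rw [e1, e3]; group
    rw [← this, e2, e4]; group
  have e6 : chi m (k⁻¹ * l) = 1 := by rw [map_mul, map_inv, hk, hl]; simp
  have e7 : chi (m + 1) (k⁻¹ * l) = 1 := by rw [e5, map_mul, map_inv, hk', hl']; simp
  have e8 : k = l := by
    have := chi_joint e6 e7
    exact (inv_mul_eq_one.mp this)
  rw [hx, hy, e8]

/-- the elements behaving well -/
def Good (g : G) : Prop := (∃ N : ℕ, ∀ m, N ≤ m → E m g = ∅) ∧ ∀ m, Small m (E m g)

lemma E_mul (m : ℕ) (g g' : G) : E m (g * g') ⊆ E m g' ∪ {x | g' * x ∈ E m g} := by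
  intro x hx
  simp only [E, Set.mem_union, Set.mem_ofPred_eq] at hx ⊢
  rw [mul_assoc] at hx
  by_contra hcon
  push Not at hcon
  exact hx (hcon.1.trans hcon.2)

lemma Good.mul {g g' : G} (hg : Good g) (hg' : Good g') : Good (g * g') := by
  obtain ⟨⟨N, hN⟩, h⟩ := hg
  obtain ⟨⟨N', hN'⟩, h'⟩ := hg'
  refine ⟨⟨max N N', fun m hm => ?_⟩, fun m => ?_⟩
  · have h1 := E_mul m g g'
    rw [hN m (le_trans (le_max_left _ _) hm), hN' m (le_trans (le_max_right _ _) hm)] at h1
    simpa using h1
  · exact Small.mono (E_mul m g g') ((h' m).union ((h m).translate g'))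

lemma good_inr (k : H) : Good (inr k) := by
  have : ∀ m, E m (inr k) = ∅ := by
    intro m
    ext x
    simp [E, fr_inr_mul]
  refine ⟨⟨0, fun m _ => this m⟩, fun m => ?_⟩
  rw [this m]
  exact Small.empty m

lemma mem_E_letter {m : ℕ} {a : X × Bool} {x : G}
    (hx : x ∈ E m (inl (FreeGroup.mk [a]))) :
    a.1.1 = m ∧ ((∃ k : H, chi m k = 1 ∧ x = (inr (a.1.2, a.1.2)) * (inr k * inl (R (m + 1)))) ∨
      (∃ k : H, chi m k = 1 ∧
        x = ((inl (FreeGroup.mk [a]))⁻¹ * inr (a.1.2, a.1.2)) * (inr k * inl (R (m + 1))))) := by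
  set h : H := x.right with hh
  set b : X × Bool := (act h⁻¹ a.1, a.2) with hb
  have hfr : fr (inl (FreeGroup.mk [a]) * x) = FreeGroup.mk [b] * fr x := by
    rw [fr_inl_mul, theta_mk_singleton]
  have key : ∀ y : G, y.right = h → fr y = R (m + 1) → (act h⁻¹ a.1) = (m, 1) →
      a.1.1 = m ∧ ∃ k : H, chi m k = 1 ∧ y = (inr (a.1.2, a.1.2)) * (inr k * inl (R (m + 1))) := by
    intro y hy hy' ha
    rw [act_apply] at ha
    have h1 : a.1.1 = m := congrArg Prod.fst ha
    have h2 : chi a.1.1 h⁻¹ * a.1.2 = 1 := congrArg Prod.snd ha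
    rw [h1] at h2
    refine ⟨h1, (a.1.2, a.1.2)⁻¹ * h, ?_, ?_⟩
    · rw [map_mul, map_inv, chi_diag]
      rw [map_inv] at h2
      have h3 : a.1.2 = chi m h := by
        rw [inv_mul_eq_one] at h2
        exact h2.symm
      rw [h3]
      simp
    · rw [← mul_assoc, ← map_mul, mul_inv_cancel_left]
      rw [eq_inr_mul_inl y, hy, hy']
  rcases letter_mul b (fr x) with h1 | h1
  · -- the letter is added
    have h2 : r (m + 1) <:+ (FreeGroup.mk [b] * fr x).toWord ∧ ¬ r (m + 1) <:+ (fr x).toWord := by
      simp only [E, Set.mem_ofPred_eq, hfr] at hx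
      rw [h1] at hx ⊢
      by_cases h3 : r (m + 1) <:+ (fr x).toWord
      · exact absurd ⟨fun _ => h3.trans (List.suffix_cons _ _), fun _ => h3⟩ hx
      · refine ⟨?_, h3⟩
        by_contra h4
        exact hx ⟨fun h5 => absurd h5 h3, fun h5 => absurd h5 h4⟩
    rw [h1, List.suffix_cons_iff] at h2
    have h3 : r (m + 1) = b :: (fr x).toWord := by
      rcases h2.1 with h | h
      · exact h
      · exact absurd h h2.2
    have h4 : b = ((m, 1), true) := by
      have := congrArg List.head? h3
      simp only [r, List.head?_cons, Option.some.injEq] at this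
      exact this.symm
    have h5 : fr (inl (FreeGroup.mk [a]) * x) = R (m + 1) := by
      apply eq_R
      rw [hfr, h1, h3]
    obtain ⟨h6, k, hk, h7⟩ := key (inl (FreeGroup.mk [a]) * x) (by simp [hh]) h5
      (by have := congrArg Prod.fst h4; exact this)
    refine ⟨h6, Or.inr ⟨k, hk, ?_⟩⟩
    rw [mul_assoc, ← h7]
    simp
  · -- the letter is cancelled
    have h2 : r (m + 1) <:+ (fr x).toWord ∧ ¬ r (m + 1) <:+ (FreeGroup.mk [b] * fr x).toWord := by
      simp only [E, Set.mem_ofPred_eq, hfr] at hx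
      by_cases h3 : r (m + 1) <:+ (FreeGroup.mk [b] * fr x).toWord
      · refine absurd ⟨fun _ => h3, fun _ => ?_⟩ hx
        rw [h1]
        exact h3.trans (List.suffix_cons _ _)
      · refine ⟨?_, h3⟩
        by_contra h4
        exact hx ⟨fun h5 => absurd h5 h4, fun h5 => absurd h5 h3⟩
    have h3 : r (m + 1) = (b.1, !b.2) :: (FreeGroup.mk [b] * fr x).toWord := by
      have h20 := h2.1
      rw [h1, List.suffix_cons_iff] at h20
      rcases h20 with h | h
      · exact h
      · exact absurd h h2.2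
    have h4 : b.1 = (m, 1) := by
      have := congrArg List.head? h3
      simp only [r, List.head?_cons, Option.some.injEq] at this
      exact (congrArg Prod.fst this).symm
    have h5 : fr x = R (m + 1) := by
      apply eq_R
      rw [h1, h3]
    obtain ⟨h6, k, hk, h7⟩ := key x rfl h5 h4
    exact ⟨h6, Or.inl ⟨k, hk, h7⟩⟩

lemma good_letter (a : X × Bool) : Good (inl (FreeGroup.mk [a])) := by
  classical
  refine ⟨⟨a.1.1 + 1, fun m hm => ?_⟩, fun m => ?_⟩
  · ext x
    simp only [Set.mem_empty_iff_false, iff_false]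
    intro hx
    have := (mem_E_letter hx).1
    omega
  · refine ⟨{inr (a.1.2, a.1.2), (inl (FreeGroup.mk [a]))⁻¹ * inr (a.1.2, a.1.2)}, ?_⟩
    intro x hx
    rcases (mem_E_letter hx).2 with h | h
    · exact ⟨_, by simp, h⟩
    · exact ⟨_, by simp, h⟩

lemma good_inl (w : FreeGroup X) : Good (inl w) := by
  have : ∀ L : List (X × Bool), Good (inl (FreeGroup.mk L)) := by
    intro L
    induction L with
    | nil =>
      have h : (inl (FreeGroup.mk []) : G) = inr 1 := by
        rw [map_one, ← FreeGroup.one_eq_mk, map_one]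
      rw [h]
      exact good_inr 1
    | cons a L ih =>
      have h : (inl (FreeGroup.mk (a :: L)) : G) = inl (FreeGroup.mk [a]) * inl (FreeGroup.mk L) := by
        rw [← map_mul, FreeGroup.mul_mk]
        rfl
      rw [h]
      exact (good_letter a).mul ih
  rw [← FreeGroup.mk_toWord (x := w)]
  exact this _

lemma good (g : G) : Good g := by
  rw [← inl_left_mul_inr_right g]
  exact (good_inl _).mul (good_inr _)

/-- the length of the longest `r m` which is a suffix of the free part of `x` -/
noncomputable def depth (x : G) : ℕ :=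
  Nat.findGreatest (fun m => r m <:+ (fr x).toWord) (fr x).toWord.length

lemma le_depth_iff (x : G) (m : ℕ) : m ≤ depth x ↔ r m <:+ (fr x).toWord := by
  constructor
  · intro h
    have h1 : r (depth x) <:+ (fr x).toWord :=
      Nat.findGreatest_spec (P := fun m => r m <:+ (fr x).toWord) (Nat.zero_le _)
        (List.nil_suffix)
    exact (r_suffix h).trans h1
  · intro h
    have h1 : m ≤ (fr x).toWord.length := by
      have := h.length_le
      rwa [length_r] at this
    exact Nat.le_findGreatest h1 h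

/-- outside a finite set the depth changes by at most one -/
lemma depth_close (g : G) : {x : G | ¬ |(depth (g * x) : ℝ) - depth x| ≤ 1}.Finite := by
  obtain ⟨⟨N, hN⟩, hs⟩ := good g
  have hfin : (⋃ m ∈ Finset.range N, (E m g ∩ E (m + 1) g)).Finite :=
    Set.Finite.biUnion (Finset.finite_toSet _) (fun m _ => (hs m).inter_finite (hs (m + 1)))
  refine hfin.subset ?_
  intro x hx
  have hmem : ∀ m, x ∈ E m g → x ∈ E (m + 1) g → x ∈ ⋃ m ∈ Finset.range N, (E m g ∩ E (m + 1) g) := by
    intro m h1 h2
    have hmN : m < N := by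
      by_contra hcon
      rw [hN m (not_lt.mp hcon)] at h1
      exact h1
    simp only [Set.mem_iUnion]
    exact ⟨m, by simpa using hmN, h1, h2⟩
  simp only [Set.mem_ofPred_eq] at hx
  rcases lt_or_ge (depth x + 1) (depth (g * x)) with h | h
  · refine hmem (depth x) ?_ ?_
    · simp only [E, Set.mem_ofPred_eq, ← le_depth_iff]
      omega
    · simp only [E, Set.mem_ofPred_eq, ← le_depth_iff]
      omega
  · rcases lt_or_ge (depth (g * x) + 1) (depth x) with h' | h'
    · refine hmem (depth (g * x)) ?_ ?_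
      · simp only [E, Set.mem_ofPred_eq, ← le_depth_iff]
        omega
      · simp only [E, Set.mem_ofPred_eq, ← le_depth_iff]
        omega
    · exfalso
      apply hx
      rw [abs_le]
      have h1 : (depth (g * x) : ℝ) ≤ depth x + 1 := by exact_mod_cast h
      have h2 : (depth x : ℝ) ≤ depth (g * x) + 1 := by exact_mod_cast h'
      constructor <;> linarith

lemma depth_boundedlyOscillating : BoundedlyOscillating (fun x : G => (depth x : ℝ)) := by
  classical
  refine ⟨3, by norm_num, fun F => ?_⟩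
  have hfin : (⋃ g ∈ F, {x : G | ¬ |(depth (g * x) : ℝ) - depth x| ≤ 1}).Finite :=
    Set.Finite.biUnion F.finite_toSet (fun g _ => depth_close g)
  refine ⟨hfin.toFinset, fun x hx => ?_⟩
  have hx' : ∀ g ∈ F, |(depth (g * x) : ℝ) - depth x| ≤ 1 := by
    intro g hg
    by_contra hcon
    apply hx
    rw [Set.Finite.mem_toFinset]
    simp only [Set.mem_iUnion]
    exact ⟨g, hg, hcon⟩
  have hball : ∀ y ∈ ball F x, |(depth y : ℝ) - depth x| ≤ 1 := by
    intro y hy
    rcases hy with rfl | ⟨g, hg, rfl⟩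
    · simp
    · exact hx' g hg
  have h2 : Metric.diam ((fun x : G => (depth x : ℝ)) '' ball F x) ≤ 2 := by
    apply Metric.diam_le_of_forall_dist_le (by norm_num)
    rintro _ ⟨y, hy, rfl⟩ _ ⟨z, hz, rfl⟩
    have h3 := hball y hy
    have h4 := hball z hz
    rw [Real.dist_eq]
    rw [abs_le] at h3 h4 ⊢
    constructor <;> linarith
  linarith

lemma fr_inl (v : FreeGroup X) : fr (inl v) = v := by
  simp [fr]

lemma depth_inl_R (m : ℕ) : m ≤ depth (inl (R m)) := by
  rw [le_depth_iff, fr_inl, toWord_R]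

lemma R_injective : Function.Injective (fun m => (inl (R m) : G)) := by
  intro m n h
  have h1 : R m = R n := inl_injective h
  have h2 := congrArg (fun v => (FreeGroup.toWord v).length) h1
  simpa [toWord_R, length_r] using h2

lemma not_boBounded : ¬ BoBounded G := by
  intro h
  obtain ⟨B, M, hB⟩ := h _ depth_boundedlyOscillating
  have hfin : {m : ℕ | (inl (R m) : G) ∈ B}.Finite :=
    Set.Finite.preimage (R_injective.injOn) B.finite_toSet
  obtain ⟨N, hN⟩ := exists_nat_gt M
  obtain ⟨m, hm, hmN⟩ : ∃ m, m ∉ {m : ℕ | (inl (R m) : G) ∈ B} ∧ N ≤ m := by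
    have hinf : (Set.Ici N \ {m : ℕ | (inl (R m) : G) ∈ B}).Infinite :=
      (Set.Ici_infinite N).sdiff hfin
    obtain ⟨m, hm⟩ := hinf.nonempty
    exact ⟨m, hm.2, hm.1⟩
  have h1 := hB (inl (R m)) hm
  have h2 : (m : ℝ) ≤ depth (inl (R m) : G) := by exact_mod_cast depth_inl_R m
  have h3 : (N : ℝ) ≤ m := by exact_mod_cast hmN
  have h4 := le_abs_self ((depth (inl (R m) : G) : ℝ))
  linarith

instance : Uncountable K := inferInstanceAs (Uncountable ℝ)

/-- the limit of a slowly oscillating function along the coset `H x` -/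
lemma exists_coset_limit {f : G → ℝ} (hf : SlowlyOscillating f) (x : G) :
    ∃ L : ℝ, ∀ ε : ℝ, 0 < ε → {k : H | ε ≤ |f (inr k * x) - L|}.Finite := by
  refine exists_limit (fun k : H => f (inr k * x)) ?_
  intro g ε hε
  have h := slow_one hf (inr g) hε
  have hinj : Set.InjOn (fun k : H => (inr k * x : G))
      ((fun k : H => (inr k * x : G)) ⁻¹' {y : G | ε ≤ |f (inr g * y) - f y|}) := by
    intro k _ k' _ hkk
    have : (inr k : G) = inr k' := mul_right_cancel hkk
    exact inr_injective this
  refine (h.preimage hinj).subset ?_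
  intro k hk
  simp only [Set.mem_preimage, Set.mem_ofPred_eq] at hk ⊢
  rw [← mul_assoc, ← map_mul]
  exact hk

/-- the limit along the coset `H x` -/
noncomputable def lim {f : G → ℝ} (hf : SlowlyOscillating f) (x : G) : ℝ :=
  (exists_coset_limit hf x).choose

lemma lim_spec {f : G → ℝ} (hf : SlowlyOscillating f) (x : G) {ε : ℝ} (hε : 0 < ε) :
    {k : H | ε ≤ |f (inr k * x) - lim hf x|}.Finite :=
  (exists_coset_limit hf x).choose_spec ε hε

/-- the limit is detected by any infinite set of `k` -/
lemma eq_lim {f : G → ℝ} (hf : SlowlyOscillating f) (x : G) (L : ℝ) (S : Set H)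
    (hS : S.Infinite)
    (h : ∀ ε : ℝ, 0 < ε → {k : H | k ∈ S ∧ ε ≤ |f (inr k * x) - L|}.Finite) :
    lim hf x = L := by
  by_contra hne
  have hpos : 0 < |lim hf x - L| / 2 := by
    have : 0 < |lim hf x - L| := abs_pos.mpr (sub_ne_zero.mpr hne)
    linarith
  obtain ⟨k, hkS, hk⟩ := (hS.sdiff ((lim_spec hf x hpos).union (h _ hpos))).nonempty
  simp only [Set.mem_union, Set.mem_ofPred_eq, not_or, not_and, not_le] at hk
  have h1 := hk.1
  have h2 := hk.2 hkS
  have h3 : |lim hf x - L| ≤ |f (inr k * x) - lim hf x| + |f (inr k * x) - L| := by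
    have := abs_sub_le (lim hf x) (f (inr k * x)) L
    rw [abs_sub_comm (lim hf x) (f (inr k * x))] at this
    exact this
  linarith

lemma lim_inr_mul {f : G → ℝ} (hf : SlowlyOscillating f) (k : H) (x : G) :
    lim hf (inr k * x) = lim hf x := by
  refine eq_lim hf _ _ Set.univ Set.infinite_univ ?_
  intro ε hε
  have h := lim_spec hf x hε
  have hinj : Set.InjOn (fun l : H => l * k)
      ((fun l : H => l * k) ⁻¹' {l : H | ε ≤ |f (inr l * x) - lim hf x|}) := by
    intro l _ l' _ hl
    exact mul_right_cancel hl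
  refine (h.preimage hinj).subset ?_
  rintro l ⟨-, hl⟩
  simp only [Set.mem_preimage, Set.mem_ofPred_eq]
  rw [map_mul, mul_assoc]
  exact hl

/-- the subgroup `K_m` of `H` fixing the letters of type `m`, parametrised by `K` -/
noncomputable def kap (m : ℕ) : K →* H :=
  if Even m then MonoidHom.inr K K else MonoidHom.inl K K

lemma chi_kap (m : ℕ) (z : K) : chi m (kap m z) = 1 := by
  unfold chi kap
  split_ifs <;> rfl

lemma kap_injective (m : ℕ) : Function.Injective (kap m) := by
  unfold kap
  split_ifs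
  · intro a b h
    exact congrArg Prod.snd h
  · intro a b h
    exact congrArg Prod.fst h

lemma letter_commute (a : X × Bool) (z : K) :
    (inr (kap a.1.1 z) : G) * inl (FreeGroup.mk [a]) =
      inl (FreeGroup.mk [a]) * inr (kap a.1.1 z) := by
  have h1 : theta (kap a.1.1 z) (FreeGroup.mk [a]) = FreeGroup.mk [a] := by
    rw [theta_mk_singleton, act_apply, chi_kap]
    simp
  have h2 : (inl (FreeGroup.mk [a]) : G) =
      inr (kap a.1.1 z) * inl (FreeGroup.mk [a]) * inr (kap a.1.1 z)⁻¹ := by
    rw [← inl_aut, h1]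
  calc (inr (kap a.1.1 z) : G) * inl (FreeGroup.mk [a])
      = (inr (kap a.1.1 z) * inl (FreeGroup.mk [a]) * inr (kap a.1.1 z)⁻¹) *
          inr (kap a.1.1 z) := by
        rw [map_inv]; group
    _ = inl (FreeGroup.mk [a]) * inr (kap a.1.1 z) := by rw [← h2]

lemma lim_letter_mul {f : G → ℝ} (hf : SlowlyOscillating f) (a : X × Bool) (x : G) :
    lim hf (inl (FreeGroup.mk [a]) * x) = lim hf x := by
  refine eq_lim hf _ _ (Set.range (kap a.1.1))
    (Set.infinite_range_of_injective (kap_injective a.1.1)) ?_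
  intro ε hε
  have hε2 : 0 < ε / 2 := by linarith
  have h1 := lim_spec hf x hε2
  have h2 := slow_one hf (inl (FreeGroup.mk [a])) hε2
  have hinj : Set.InjOn (fun k : H => (inr k * x : G))
      ((fun k : H => (inr k * x : G)) ⁻¹'
        {y : G | ε / 2 ≤ |f (inl (FreeGroup.mk [a]) * y) - f y|}) := by
    intro k _ k' _ hkk
    have : (inr k : G) = inr k' := mul_right_cancel hkk
    exact inr_injective this
  refine (h1.union (h2.preimage hinj)).subset ?_
  rintro k ⟨⟨z, rfl⟩, hk⟩
  simp only [Set.mem_union, Set.mem_preimage, Set.mem_ofPred_eq]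
  by_contra hcon
  push Not at hcon
  obtain ⟨h3, h4⟩ := hcon
  rw [← mul_assoc, letter_commute, mul_assoc] at hk
  have h5 := abs_sub_le (f (inl (FreeGroup.mk [a]) * (inr (kap a.1.1 z) * x)))
    (f (inr (kap a.1.1 z) * x)) (lim hf x)
  linarith

lemma lim_mul {f : G → ℝ} (hf : SlowlyOscillating f) (g x : G) :
    lim hf (g * x) = lim hf x := by
  have hl : ∀ L : List (X × Bool), ∀ x : G,
      lim hf (inl (FreeGroup.mk L) * x) = lim hf x := by
    intro L
    induction L with
    | nil =>
      intro x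
      have h : (inl (FreeGroup.mk []) : G) = 1 := by
        rw [← FreeGroup.one_eq_mk, map_one]
      rw [h, one_mul]
    | cons a L ih =>
      intro x
      have h : (inl (FreeGroup.mk (a :: L)) : G) =
          inl (FreeGroup.mk [a]) * inl (FreeGroup.mk L) := by
        rw [← map_mul, FreeGroup.mul_mk]
        rfl
      rw [h, mul_assoc, lim_letter_mul, ih]
  rw [← inl_left_mul_inr_right g, mul_assoc, ← FreeGroup.mk_toWord (x := g.left), hl,
    lim_inr_mul]

lemma soBounded : SoBounded G := by
  intro f hf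
  refine ⟨∅, ?_⟩
  simp only [Finset.notMem_empty, not_false_eq_true, forall_const]
  by_contra hcon
  push Not at hcon
  set L : ℝ := lim hf 1 with hL
  have hlim : ∀ x, lim hf x = L := by
    intro x
    have := lim_mul hf x 1
    rwa [mul_one] at this
  choose x hx using fun n : ℕ => hcon ((n : ℝ) + |L|)
  have hcount : (⋃ n : ℕ, {k : H | 1 ≤ |f (inr k * x n) - L|}).Countable := by
    refine Set.countable_iUnion (fun n => ?_)
    have := lim_spec hf (x n) one_pos
    rw [hlim] at this
    exact this.countable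
  obtain ⟨k, hk⟩ : ∃ k, k ∉ (⋃ n : ℕ, {k : H | 1 ≤ |f (inr k * x n) - L|}) := by
    by_contra hcon
    push Not at hcon
    have : (⋃ n : ℕ, {k : H | 1 ≤ |f (inr k * x n) - L|}) = Set.univ :=
      Set.eq_univ_of_forall hcon
    rw [this] at hcount
    exact not_countable (Set.countable_univ_iff.mp hcount)
  have hk' : ∀ n, |f (inr k * x n) - L| < 1 := by
    intro n
    by_contra h
    exact hk (Set.mem_iUnion.mpr ⟨n, not_lt.mp h⟩)
  have hfin := slow_one hf (inr k) one_pos
  obtain ⟨M, hM⟩ : ∃ M : ℝ, ∀ y ∈ {y : G | 1 ≤ |f (inr k * y) - f y|}, |f y| ≤ M := by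
    obtain ⟨M, hM⟩ := (hfin.image (fun y => |f y|)).bddAbove
    exact ⟨M, fun y hy => hM ⟨y, hy, rfl⟩⟩
  obtain ⟨n, hn⟩ := exists_nat_gt (max M (2 + |L|))
  have h1 := hx n
  have h2 := hk' n
  have h3 : |f (x n) - L| ≤ |f (inr k * x n) - f (x n)| + |f (inr k * x n) - L| := by
    have := abs_sub_le (f (x n)) (f (inr k * x n)) L
    rw [abs_sub_comm (f (x n)) (f (inr k * x n))] at this
    exact this
  have h4 : |f (x n)| ≤ |f (x n) - L| + |L| := by
    have := abs_add_le (f (x n) - L) L
    simpa using this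
  have h5 : (2 : ℝ) + |L| < n := lt_of_le_of_lt (le_max_right _ _) hn
  have h6 : M < n := lt_of_le_of_lt (le_max_left _ _) hn
  have h7 : x n ∈ {y : G | 1 ≤ |f (inr k * y) - f y|} := by
    simp only [Set.mem_ofPred_eq]
    have := abs_nonneg L
    linarith
  have h8 := hM _ h7
  have h9 := abs_nonneg L
  linarith

/-- There is a group whose finitary ballean is so-bounded but not bo-bounded. -/
theorem result : ∃ (G : Type) (_ : Group G), SoBounded G ∧ ¬ BoBounded G :=
  ⟨G, inferInstance, soBounded, not_boBounded⟩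

end Pool.H16.MV.SoNotBo
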